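import Pool.Agent.Lib.MP_fa837f_gt.TS.Iface

/-!
PLA2: log-concavity of the area for simple systems.
-/

set_option autoImplicit false

open MeasureTheory Set Filter Topology

namespace Pool.Agent.Lib.MP_fa837f_gt.TS.H3

section

variable {ι : Type} [Fintype ι] {v w : ι → ℝ} {S : ι → (ι → ℝ) → ℝ}

/-- Homogeneity of the area. -/
theorem homog (hV : ∀ h : ι → ℝ, (∀ j, 0 < h j) → ∑ i, S i h = 2 * area v w h)
    (hD : ∀ h u : ι → ℝ, (∀ j, 0 < h j) → ∀ s : ℝ,
      HasDerivAt (fun x : ℝ => area v w (fun j => h j * Real.exp (x * u j)))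
        (∑ i, u i * S i (fun j => h j * Real.exp (s * u j))) s)
    (h : ι → ℝ) (hh : ∀ j, 0 < h j) (s : ℝ) :
    area v w (fun j => h j * Real.exp s) = Real.exp (2 * s) * area v w h := by
  have h1 : ∀ x : ℝ, HasDerivAt (fun x : ℝ => area v w (fun j => h j * Real.exp x))
      (2 * area v w (fun j => h j * Real.exp x)) x := by
    intro x
    have := hD h (fun _ => 1) hh x
    simp only [mul_one, one_mul] at this
    rw [hV _ (fun j => mul_pos (hh j) (Real.exp_pos _))] at this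
    exact this
  have h2 : ∀ x : ℝ, HasDerivAt (fun x : ℝ => Real.exp (-(2 * x)) *
      area v w (fun j => h j * Real.exp x)) 0 x := by
    intro x
    have h3 : HasDerivAt (fun x : ℝ => Real.exp (-(2 * x))) (Real.exp (-(2 * x)) * (-(2 * 1))) x :=
      (((hasDerivAt_id x).const_mul 2).neg).exp
    have h4 := h3.fun_mul (h1 x)
    have h5 : (0 : ℝ) = Real.exp (-(2 * x)) * (-(2 * 1)) * area v w (fun j => h j * Real.exp x) +
        Real.exp (-(2 * x)) * (2 * area v w (fun j => h j * Real.exp x)) := by ring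
    rw [h5]
    exact h4
  have h3 := is_const_of_deriv_eq_zero (f := fun x : ℝ => Real.exp (-(2 * x)) *
      area v w (fun j => h j * Real.exp x)) (fun x => (h2 x).differentiableAt)
    (fun x => (h2 x).deriv) s 0
  simp only [mul_zero, neg_zero, Real.exp_zero, one_mul, mul_one] at h3
  rw [← h3, ← mul_assoc, ← Real.exp_add]
  have : 2 * s + -(2 * s) = 0 := by ring
  rw [this, Real.exp_zero, one_mul]

theorem second (hS0 : ∀ i h, (∀ j, 0 < h j) → 0 ≤ S i h)
    (hSc : ∀ i, ContinuousOn (S i) {h | ∀ j, 0 < h j})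
    (hD : ∀ h u : ι → ℝ, (∀ j, 0 < h j) → ∀ s : ℝ,
      HasDerivAt (fun x : ℝ => area v w (fun j => h j * Real.exp (x * u j)))
        (∑ i, u i * S i (fun j => h j * Real.exp (s * u j))) s)
    (h : ι → ℝ) (hh : ∀ j, 0 < h j) (d : ι → ℝ) {ε : ℝ} (hε : 0 < ε) :
    ∀ᶠ s in 𝓝 (0 : ℝ), area v w (fun j => h j * Real.cosh (s * d j)) ≤
      area v w h + s ^ 2 * (∑ j, d j ^ 2 * S j h) / 2 + ε * s ^ 2 := by
  have hd0 : 0 ≤ ∑ j, d j ^ 2 := Finset.sum_nonneg fun j _ => sq_nonneg _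
  obtain ⟨η, hη⟩ : ∃ η, η = 2 * ε / (∑ j, d j ^ 2 + 1) := ⟨_, rfl⟩
  have hη0 : 0 < η := by
    rw [hη]
    positivity
  have h1 : ∀ᶠ h' in 𝓝[{h : ι → ℝ | ∀ j, 0 < h j}] h, ∀ j, |S j h' - S j h| < η := by
    rw [Filter.eventually_all]
    intro j
    have := (hSc j) h hh
    have h2 := (Metric.tendsto_nhds.1 this) η hη0
    exact h2
  rw [Filter.Eventually, Metric.mem_nhdsWithin_iff] at h1
  obtain ⟨ρ, hρ, h2'⟩ := h1
  have h2 : ∀ h' : ι → ℝ, dist h' h < ρ → (∀ j, 0 < h' j) → ∀ j, |S j h' - S j h| < η :=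
    fun h' h3 h4 => h2' ⟨h3, h4⟩
  have h3 : ∀ᶠ s in 𝓝 (0 : ℝ), ∀ j, |h j * Real.cosh (s * d j) - h j| < ρ := by
    rw [Filter.eventually_all]
    intro j
    have hc : Continuous fun s : ℝ => h j * Real.cosh (s * d j) :=
      continuous_const.mul (Real.continuous_cosh.comp (continuous_id.mul continuous_const))
    have h4 := hc.tendsto 0
    rw [zero_mul, Real.cosh_zero, mul_one] at h4
    exact (Metric.tendsto_nhds.1 h4) ρ hρ
  filter_upwards [h3] with s hs
  let U : ι → ℝ := fun j => Real.log (Real.cosh (s * d j))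
  have hU0 : ∀ j, 0 ≤ U j := fun j => Real.log_nonneg (Real.one_le_cosh _)
  have hU1 : ∀ j, Real.exp (U j) = Real.cosh (s * d j) := fun j =>
    Real.exp_log (Real.cosh_pos _)
  have hU2 : ∀ j, U j ≤ s ^ 2 * d j ^ 2 / 2 := by
    intro j
    have h4 := Real.log_le_log (Real.cosh_pos _) (Real.cosh_le_exp_half_sq (s * d j))
    rw [Real.log_exp, mul_pow] at h4
    exact h4
  have hF := hD h U hh
  obtain ⟨x, hx, hx'⟩ := exists_hasDerivAt_eq_slope
    (fun x : ℝ => area v w (fun j => h j * Real.exp (x * U j)))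
    (fun x => ∑ i, U i * S i (fun j => h j * Real.exp (x * U j))) zero_lt_one
    (fun x _ => (hF x).continuousAt.continuousWithinAt) (fun x _ => hF x)
  simp only [one_mul, zero_mul, Real.exp_zero, mul_one, sub_zero, div_one] at hx'
  have h5 : ∀ j, |S j (fun j => h j * Real.exp (x * U j)) - S j h| < η := by
    refine h2 _ ?_ (fun j => mul_pos (hh j) (Real.exp_pos _))
    rw [dist_pi_lt_iff hρ]
    intro j
    rw [Real.dist_eq, abs_of_nonneg]
    · refine lt_of_le_of_lt ?_ (lt_of_abs_lt (hs j))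
      rw [← hU1]
      have h6 : x * U j ≤ U j := by
        have := mul_le_mul_of_nonneg_right hx.2.le (hU0 j)
        rwa [one_mul] at this
      have h7 := mul_le_mul_of_nonneg_left (Real.exp_le_exp.2 h6) (hh j).le
      linarith
    · have h6 : 0 ≤ x * U j := mul_nonneg hx.1.le (hU0 j)
      have h7 := mul_le_mul_of_nonneg_left (Real.one_le_exp h6) (hh j).le
      linarith
  have h6 : ∑ i, U i * S i (fun j => h j * Real.exp (x * U j)) ≤
      ∑ i, s ^ 2 * d i ^ 2 / 2 * (S i h + η) := by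
    refine Finset.sum_le_sum fun i _ => ?_
    have h7 := lt_of_abs_lt (h5 i)
    have h8 := hS0 i (fun j => h j * Real.exp (x * U j)) (fun j => mul_pos (hh j) (Real.exp_pos _))
    have h9 : (0 : ℝ) ≤ s ^ 2 * d i ^ 2 / 2 := by positivity
    exact mul_le_mul (hU2 i) (by linarith) h8 h9
  have h7 : ∑ i, s ^ 2 * d i ^ 2 / 2 * (S i h + η) =
      s ^ 2 * (∑ j, d j ^ 2 * S j h) / 2 + s ^ 2 * (η * (∑ j, d j ^ 2)) / 2 := by
    rw [Finset.mul_sum, Finset.mul_sum, Finset.mul_sum, Finset.sum_div, Finset.sum_div,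
      ← Finset.sum_add_distrib]
    exact Finset.sum_congr rfl fun i _ => by ring
  have h8 : η * (∑ j, d j ^ 2) ≤ 2 * ε := by
    rw [hη, div_mul_eq_mul_div, div_le_iff₀ (by positivity)]
    nlinarith
  have h9 : area v w (fun j => h j * Real.cosh (s * d j)) - area v w h ≤
      s ^ 2 * (∑ j, d j ^ 2 * S j h) / 2 + s ^ 2 * (η * (∑ j, d j ^ 2)) / 2 := by
    rw [← h7]
    refine le_trans (le_of_eq ?_) h6
    rw [hx']
    simp only [hU1]
  have h10 : s ^ 2 * (η * (∑ j, d j ^ 2)) ≤ s ^ 2 * (2 * ε) :=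
    mul_le_mul_of_nonneg_left h8 (sq_nonneg s)
  linarith

theorem cosh_lower (x : ℝ) : 1 + x ^ 2 / 2 ≤ Real.cosh x := by
  have h1 : Real.cosh x = 1 + 2 * Real.sinh (x / 2) ^ 2 := by
    have h2 := Real.cosh_two_mul (x / 2)
    have h3 := Real.cosh_sq (x / 2)
    have h4 : 2 * (x / 2) = x := by ring
    rw [h4] at h2
    rw [h2, h3]
    ring
  have h2 : (x / 2) ^ 2 ≤ Real.sinh (x / 2) ^ 2 := by
    rw [sq_le_sq, Real.abs_sinh]
    exact Real.self_le_sinh_iff.2 (abs_nonneg _)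
  rw [h1]
  nlinarith

theorem prod_lower (T u : ι → ℝ) (hT : ∀ i, 0 ≤ T i) (s : ℝ) :
    (∑ i, T i) ^ 2 + 2 * s ^ 2 * (∑ i, ∑ j, T i * T j * (u j - u i) ^ 2) ≤
      (∑ i, T i * Real.exp (-(2 * s * u i))) * (∑ i, T i * Real.exp (2 * s * u i)) := by
  have h1 : (∑ i, T i * Real.exp (-(2 * s * u i))) * (∑ i, T i * Real.exp (2 * s * u i)) =
      ∑ i, ∑ j, T i * T j * Real.exp (2 * s * (u j - u i)) := by
    rw [Finset.sum_mul_sum]
    refine Finset.sum_congr rfl fun i _ => Finset.sum_congr rfl fun j _ => ?_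
    have : 2 * s * (u j - u i) = -(2 * s * u i) + 2 * s * u j := by ring
    rw [this, Real.exp_add]
    ring
  have h2 : ∑ i, ∑ j, T i * T j * Real.exp (2 * s * (u j - u i)) =
      ∑ i, ∑ j, T i * T j * Real.exp (-(2 * s * (u j - u i))) := by
    rw [Finset.sum_comm]
    refine Finset.sum_congr rfl fun i _ => Finset.sum_congr rfl fun j _ => ?_
    have : -(2 * s * (u j - u i)) = 2 * s * (u i - u j) := by ring
    rw [this]
    ring
  have h3 : ∑ i, ∑ j, T i * T j * Real.exp (2 * s * (u j - u i)) =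
      ∑ i, ∑ j, T i * T j * Real.cosh (2 * s * (u j - u i)) := by
    have h4 : ∑ i, ∑ j, T i * T j * Real.cosh (2 * s * (u j - u i)) =
        (∑ i, ∑ j, T i * T j * Real.exp (2 * s * (u j - u i)) +
          ∑ i, ∑ j, T i * T j * Real.exp (-(2 * s * (u j - u i)))) / 2 := by
      rw [← Finset.sum_add_distrib, Finset.sum_div]
      refine Finset.sum_congr rfl fun i _ => ?_
      rw [← Finset.sum_add_distrib, Finset.sum_div]
      refine Finset.sum_congr rfl fun j _ => ?_
      rw [Real.cosh_eq]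
      ring
    rw [h4, ← h2]
    ring
  rw [h1, h3, sq, Finset.sum_mul_sum, Finset.mul_sum, ← Finset.sum_add_distrib]
  refine Finset.sum_le_sum fun i _ => ?_
  rw [Finset.mul_sum, ← Finset.sum_add_distrib]
  refine Finset.sum_le_sum fun j _ => ?_
  have h5 := cosh_lower (2 * s * (u j - u i))
  have h6 := mul_le_mul_of_nonneg_left h5 (mul_nonneg (hT i) (hT j))
  refine le_trans (le_of_eq ?_) h6
  ring

theorem key (hS0 : ∀ i h, (∀ j, 0 < h j) → 0 ≤ S i h)
    (hSc : ∀ i, ContinuousOn (S i) {h | ∀ j, 0 < h j})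
    (hV : ∀ h : ι → ℝ, (∀ j, 0 < h j) → 0 < area v w h ∧ ∑ i, S i h = 2 * area v w h)
    (hD : ∀ h u : ι → ℝ, (∀ j, 0 < h j) → ∀ s : ℝ,
      HasDerivAt (fun x : ℝ => area v w (fun j => h j * Real.exp (x * u j)))
        (∑ i, u i * S i (fun j => h j * Real.exp (s * u j))) s)
    (hBM : ∀ i h, (∀ j, 0 < h j) → 0 < S i h → ∃ δ, 0 < δ ∧ ∀ h₁ h₂ : ι → ℝ,
      (∀ j, |h₁ j - h j| < δ) → (∀ j, |h₂ j - h j| < δ) → h₁ i = h i → h₂ i = h i →
      area v w h₁ + area v w h₂ ≤ 2 * area v w (fun j => (h₁ j + h₂ j) / 2))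
    (h : ι → ℝ) (hh : ∀ j, 0 < h j) (u : ι → ℝ) {ε : ℝ} (hε : 0 < ε) :
    ∀ᶠ s in 𝓝 (0 : ℝ), area v w (fun j => h j * Real.exp (s * u j)) *
      area v w (fun j => h j * Real.exp (-(s * u j))) ≤ area v w h ^ 2 * (1 + ε * s ^ 2) := by
  obtain ⟨V, hVd⟩ : ∃ V, V = area v w h := ⟨_, rfl⟩
  have hV0 : 0 < V := hVd ▸ (hV h hh).1
  have hVs : ∑ i, S i h = 2 * V := hVd ▸ (hV h hh).2
  obtain ⟨Q, hQ⟩ : ∃ Q, Q = ∑ i, ∑ j, S i h * S j h * (u j - u i) ^ 2 := ⟨_, rfl⟩
  have hQ0 : 0 ≤ Q := by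
    rw [hQ]
    exact Finset.sum_nonneg fun i _ => Finset.sum_nonneg fun j _ =>
      mul_nonneg (mul_nonneg (hS0 i h hh) (hS0 j h hh)) (sq_nonneg _)
  have step : ∀ i, ∀ᶠ s in 𝓝 (0 : ℝ), S i h * (Real.exp (-(2 * s * u i)) *
      area v w (fun j => h j * Real.exp (s * u j)) + Real.exp (2 * s * u i) *
      area v w (fun j => h j * Real.exp (-(s * u j)))) ≤
      S i h * (2 * V + s ^ 2 * (∑ j, (u j - u i) ^ 2 * S j h) + 2 * (ε * V / 4) * s ^ 2) := by
    intro i
    rcases (hS0 i h hh).eq_or_lt with h0 | h0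
    · rw [← h0]
      simp
    obtain ⟨δ, hδ, h1⟩ := hBM i h hh h0
    have hex : ∀ c : ℝ, ∀ᶠ s in 𝓝 (0 : ℝ), ∀ j,
        |h j * Real.exp (c * (s * (u j - u i))) - h j| < δ := by
      intro c
      rw [Filter.eventually_all]
      intro j
      have hc : Continuous fun s : ℝ => h j * Real.exp (c * (s * (u j - u i))) := by fun_prop
      have h4 := hc.tendsto 0
      rw [zero_mul, mul_zero, Real.exp_zero, mul_one] at h4
      exact (Metric.tendsto_nhds.1 h4) δ hδ
    filter_upwards [hex 1, hex (-1), second hS0 hSc hD h hh (fun j => u j - u i)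
      (show 0 < ε * V / 4 by positivity)] with s h2 h3 h4
    refine mul_le_mul_of_nonneg_left ?_ h0.le
    have h5 := h1 _ _ h2 h3 (by simp) (by simp)
    have e1 : (fun j => h j * Real.exp (1 * (s * (u j - u i)))) =
        fun j => (h j * Real.exp (s * u j)) * Real.exp (-(s * u i)) := by
      funext j
      rw [mul_assoc, ← Real.exp_add]
      ring_nf
    have e2 : (fun j => h j * Real.exp (-1 * (s * (u j - u i)))) =
        fun j => (h j * Real.exp (-(s * u j))) * Real.exp (s * u i) := by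
      funext j
      rw [mul_assoc, ← Real.exp_add]
      ring_nf
    have e3 : (fun j => (h j * Real.exp (1 * (s * (u j - u i))) +
        h j * Real.exp (-1 * (s * (u j - u i)))) / 2) =
        fun j => h j * Real.cosh (s * (u j - u i)) := by
      funext j
      rw [Real.cosh_eq]
      ring_nf
    rw [e3, e1, e2, homog (fun h hh => (hV h hh).2) hD _ (fun j => mul_pos (hh j)
      (Real.exp_pos _)), homog (fun h hh => (hV h hh).2) hD _ (fun j => mul_pos (hh j)
      (Real.exp_pos _))] at h5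
    have e4 : 2 * -(s * u i) = -(2 * s * u i) := by ring
    have e5 : 2 * (s * u i) = 2 * s * u i := by ring
    rw [e4, e5] at h5
    rw [hVd]
    rw [← hVd] at h4 ⊢
    linarith
  have hsmall : ∀ᶠ s in 𝓝 (0 : ℝ), s ^ 2 * (Q + ε * V ^ 2) ^ 2 < 8 * V ^ 4 * ε := by
    have hc : Continuous fun s : ℝ => s ^ 2 * (Q + ε * V ^ 2) ^ 2 := by fun_prop
    have h4 := hc.tendsto 0
    have e : (0 : ℝ) ^ 2 * (Q + ε * V ^ 2) ^ 2 = 0 := by ring
    rw [e] at h4
    exact h4.eventually (gt_mem_nhds (by positivity))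
  filter_upwards [Filter.eventually_all.2 step, hsmall] with s hs hs2
  rw [← hVd]
  obtain ⟨X, hX⟩ : ∃ X, X = area v w (fun j => h j * Real.exp (s * u j)) := ⟨_, rfl⟩
  obtain ⟨Y, hY⟩ : ∃ Y, Y = area v w (fun j => h j * Real.exp (-(s * u j))) := ⟨_, rfl⟩
  have hX0 : 0 < X := hX ▸ (hV _ fun j => mul_pos (hh j) (Real.exp_pos _)).1
  have hY0 : 0 < Y := hY ▸ (hV _ fun j => mul_pos (hh j) (Real.exp_pos _)).1
  rw [← hX, ← hY]
  simp only [← hX, ← hY] at hs
  obtain ⟨A, hA⟩ : ∃ A, A = ∑ i, S i h * Real.exp (-(2 * s * u i)) := ⟨_, rfl⟩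
  obtain ⟨B, hB⟩ : ∃ B, B = ∑ i, S i h * Real.exp (2 * s * u i) := ⟨_, rfl⟩
  have hA0 : 0 ≤ A := by
    rw [hA]
    exact Finset.sum_nonneg fun i _ => mul_nonneg (hS0 i h hh) (Real.exp_pos _).le
  have hB0 : 0 ≤ B := by
    rw [hB]
    exact Finset.sum_nonneg fun i _ => mul_nonneg (hS0 i h hh) (Real.exp_pos _).le
  have h1 : A * X + B * Y ≤ 4 * V ^ 2 + s ^ 2 * Q + ε * V ^ 2 * s ^ 2 := by
    have h2 := Finset.sum_le_sum fun i (_ : i ∈ Finset.univ) => hs i
    have h3 : ∑ i, S i h * (Real.exp (-(2 * s * u i)) * X + Real.exp (2 * s * u i) * Y) =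
        A * X + B * Y := by
      rw [hA, hB, Finset.sum_mul, Finset.sum_mul, ← Finset.sum_add_distrib]
      exact Finset.sum_congr rfl fun i _ => by ring
    have h4 : ∑ i, S i h * (2 * V + s ^ 2 * (∑ j, (u j - u i) ^ 2 * S j h) +
        2 * (ε * V / 4) * s ^ 2) = (∑ i, S i h) * (2 * V + 2 * (ε * V / 4) * s ^ 2) +
        s ^ 2 * Q := by
      rw [hQ, Finset.sum_mul, Finset.mul_sum, ← Finset.sum_add_distrib]
      refine Finset.sum_congr rfl fun i _ => ?_
      have h5 : ∑ j, S i h * S j h * (u j - u i) ^ 2 =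
          S i h * ∑ j, (u j - u i) ^ 2 * S j h := by
        rw [Finset.mul_sum]
        exact Finset.sum_congr rfl fun j _ => by ring
      rw [h5]
      ring
    rw [h3, h4, hVs] at h2
    refine h2.trans (le_of_eq ?_)
    ring
  have h2 : 4 * V ^ 2 + 2 * s ^ 2 * Q ≤ A * B := by
    have h3 := prod_lower (fun i => S i h) u (fun i => hS0 i h hh) s
    rw [hVs, ← hQ, ← hA, ← hB] at h3
    refine le_trans (le_of_eq ?_) h3
    ring
  have hXY : 0 < X * Y := mul_pos hX0 hY0
  have hs0 : 0 ≤ s ^ 2 := sq_nonneg s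
  have h3 : 4 * (A * B) * (X * Y) ≤ (A * X + B * Y) ^ 2 := by
    nlinarith [sq_nonneg (A * X - B * Y)]
  have h4 : (A * X + B * Y) ^ 2 ≤ (4 * V ^ 2 + s ^ 2 * Q + ε * V ^ 2 * s ^ 2) ^ 2 :=
    pow_le_pow_left₀ (by positivity) h1 2
  have h5 : (4 * V ^ 2 + s ^ 2 * Q + ε * V ^ 2 * s ^ 2) ^ 2 ≤
      4 * (4 * V ^ 2 + 2 * s ^ 2 * Q) * (V ^ 2 * (1 + ε * s ^ 2)) := by
    have h6 : s ^ 2 * (s ^ 2 * (Q + ε * V ^ 2) ^ 2) ≤ s ^ 2 * (8 * V ^ 4 * ε) :=
      mul_le_mul_of_nonneg_left hs2.le hs0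
    have h7 : 0 ≤ V ^ 2 * (s ^ 2) ^ 2 * ε * Q := by positivity
    nlinarith
  have h6 : 4 * (4 * V ^ 2 + 2 * s ^ 2 * Q) * (X * Y) ≤
      4 * (4 * V ^ 2 + 2 * s ^ 2 * Q) * (V ^ 2 * (1 + ε * s ^ 2)) := by
    refine le_trans ?_ (h3.trans (h4.trans h5))
    exact mul_le_mul_of_nonneg_right (by linarith) hXY.le
  exact le_of_mul_le_mul_left h6 (by positivity)

end

/-- **PLA2** -/
theorem pla2 (hSch : SchStatement) (hPla1 : Pla1Statement) : Pla2Statement := by
  intro ι _ v w hvw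
  obtain ⟨S, hS0, hSc, hV, hD, hBM⟩ := hPla1 ι v w hvw
  -- concavity on lines
  have line : ∀ t u : ι → ℝ, ConcaveOn ℝ Set.univ
      (fun x : ℝ => Real.log (area v w (fun i => Real.exp (t i + x * u i)))) := by
    intro t u
    have hpos : ∀ t' : ι → ℝ, 0 < area v w (fun i => Real.exp (t' i)) := fun t' =>
      (hV _ fun i => Real.exp_pos _).1
    apply hSch
    · have h1 : Continuous fun x : ℝ => area v w (fun i => Real.exp (t i + x * u i)) := by
        have h2 : (fun x : ℝ => area v w (fun i => Real.exp (t i + x * u i))) =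
            fun x : ℝ => area v w (fun i => Real.exp (t i) * Real.exp (x * u i)) := by
          funext x
          simp only [Real.exp_add]
        rw [h2]
        exact continuous_iff_continuousAt.2 fun x =>
          (hD (fun i => Real.exp (t i)) u (fun i => Real.exp_pos _) x).continuousAt
      exact h1.log fun x => (hpos fun i => t i + x * u i).ne'
    · intro x ε hε
      have h1 := key hS0 hSc hV hD hBM (fun i => Real.exp (t i + x * u i))
        (fun i => Real.exp_pos _) u hε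
      rw [Metric.eventually_nhds_iff] at h1
      obtain ⟨δ, hδ, h2⟩ := h1
      refine ⟨δ, hδ, fun s hs0 hsδ => ?_⟩
      have h3 := h2 (show dist s 0 < δ by rw [Real.dist_eq, sub_zero, abs_of_pos hs0]; exact hsδ)
      have e1 : (fun j => Real.exp (t j + x * u j) * Real.exp (s * u j)) =
          fun j => Real.exp (t j + (x + s) * u j) := by
        funext j
        rw [← Real.exp_add]
        ring_nf
      have e2 : (fun j => Real.exp (t j + x * u j) * Real.exp (-(s * u j))) =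
          fun j => Real.exp (t j + (x - s) * u j) := by
        funext j
        rw [← Real.exp_add]
        ring_nf
      rw [e1, e2] at h3
      have p1 := hpos fun j => t j + (x + s) * u j
      have p2 := hpos fun j => t j + (x - s) * u j
      have p3 := hpos fun j => t j + x * u j
      have p4 : 0 < 1 + ε * s ^ 2 := by positivity
      have h4 := Real.log_le_log (mul_pos p1 p2) h3
      rw [Real.log_mul p1.ne' p2.ne', Real.log_mul (by positivity) p4.ne', Real.log_pow] at h4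
      have h5 := Real.log_le_sub_one_of_pos p4
      push_cast at h4
      linarith
  refine ⟨convex_univ, fun t _ t' _ a b ha hb hab => ?_⟩
  have h1 := (line t (fun i => t' i - t i)).2 (Set.mem_univ 0) (Set.mem_univ 1) ha hb hab
  simp only [smul_eq_mul, mul_zero, mul_one, zero_add, zero_mul, one_mul, add_zero] at h1
  have e1 : (fun i => t i + (t' i - t i)) = t' := by
    funext i
    ring
  have e2 : (fun i => Real.exp (t i + (t' i - t i))) = fun i => Real.exp (t' i) := by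
    funext i
    congr 1
    ring
  have e3 : (fun i => Real.exp (t i + b * (t' i - t i))) =
      fun i => Real.exp ((a • t + b • t') i) := by
    funext i
    congr 1
    have : a = 1 - b := by linarith
    simp only [Pi.add_apply, Pi.smul_apply, smul_eq_mul, this]
    ring
  rw [e2, e3] at h1
  simpa only [smul_eq_mul] using h1

end Pool.Agent.Lib.MP_fa837f_gt.TS.H3
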